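import Pool.Agent.Helper65.HF.StA

/-!
Project HF, module CLR: clearing denominators.
-/

namespace Pool.Agent.Helper74.HF

open MvPolynomial Pool.Agent.Helper45 Pool.Agent.Helper65.HF

section

variable {R F : Type} [CommRing R] [IsDomain R] [Field F] [Algebra R F] [IsFractionRing R F]
  {σ : Type}

/-- Common denominators. -/
private theorem clr_denom (g : MvPolynomial σ F) :
    ∃ q : R, q ≠ 0 ∧ ∃ g' : MvPolynomial σ R,
      MvPolynomial.map (algebraMap R F) g' = C (algebraMap R F q) * g := by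
  induction g using MvPolynomial.induction_on with
  | C a =>
    obtain ⟨x, y, hy, rfl⟩ := IsFractionRing.div_surjective (A := R) a
    have hy0 : y ≠ 0 := nonZeroDivisors.ne_zero hy
    have hy1 : algebraMap R F y ≠ 0 :=
      (map_ne_zero_iff _ (IsFractionRing.injective R F)).2 hy0
    refine ⟨y, hy0, C x, ?_⟩
    rw [map_C, ← C_mul, mul_div_cancel₀ _ hy1]
  | add f g hf hg =>
    obtain ⟨q, hq, f', hf'⟩ := hf
    obtain ⟨t, ht, g', hg'⟩ := hg
    refine ⟨q * t, mul_ne_zero hq ht, C t * f' + C q * g', ?_⟩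
    rw [map_add, map_mul, map_mul, map_C, map_C, hf', hg', map_mul, C_mul]
    ring
  | mul_X f n hf =>
    obtain ⟨q, hq, f', hf'⟩ := hf
    refine ⟨q, hq, f' * X n, ?_⟩
    rw [map_mul, map_X, hf', mul_assoc]

end

/-- CLR -/
theorem hCLR : Pool.Agent.Helper65.HF.sCLR := by
  intro k _ j N r m
  have inj : Function.Injective (algebraMap (MvPolynomial (ℕ × ℕ) k)
      (FractionRing (MvPolynomial (ℕ × ℕ) k))) := IsFractionRing.injective _ _
  have hlf : ∀ i, MvPolynomial.map (algebraMap (MvPolynomial (ℕ × ℕ) k)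
      (FractionRing (MvPolynomial (ℕ × ℕ) k))) (lf (gP k) N i) = lf (gF k) N i := by
    intro i
    unfold lf
    rw [map_sum]
    refine Finset.sum_congr rfl fun s _ => ?_
    rw [map_mul, map_C, map_X]
    rfl
  constructor
  · rintro ⟨f, hf, hh, hm, hb⟩
    have claim : ∀ f ∈ idl (gF k) j N r, ∃ q : MvPolynomial (ℕ × ℕ) k, q ≠ 0 ∧
        ∃ f' ∈ idl (gP k) j N r, MvPolynomial.map (algebraMap (MvPolynomial (ℕ × ℕ) k)
          (FractionRing (MvPolynomial (ℕ × ℕ) k))) f' =
            C (algebraMap (MvPolynomial (ℕ × ℕ) k)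
              (FractionRing (MvPolynomial (ℕ × ℕ) k)) q) * f := by
      intro f hf
      refine Submodule.span_induction (p := fun f _ => ∃ q : MvPolynomial (ℕ × ℕ) k, q ≠ 0 ∧
        ∃ f' ∈ idl (gP k) j N r, MvPolynomial.map (algebraMap (MvPolynomial (ℕ × ℕ) k)
          (FractionRing (MvPolynomial (ℕ × ℕ) k))) f' =
            C (algebraMap (MvPolynomial (ℕ × ℕ) k)
              (FractionRing (MvPolynomial (ℕ × ℕ) k)) q) * f) ?_ ?_ ?_ ?_ hf
      · rintro x ⟨i, hi, rfl⟩
        refine ⟨1, one_ne_zero, lf (gP k) N i ^ j, Ideal.subset_span ⟨i, hi, rfl⟩, ?_⟩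
        rw [map_pow, hlf, map_one, C_1, one_mul]
      · exact ⟨1, one_ne_zero, 0, Submodule.zero_mem _, by rw [map_zero, mul_zero]⟩
      · rintro x y _ _ ⟨q, hq, x', hx', ex⟩ ⟨t, ht, y', hy', ey⟩
        refine ⟨q * t, mul_ne_zero hq ht, C t * x' + C q * y',
          Ideal.add_mem _ (Ideal.mul_mem_left _ _ hx') (Ideal.mul_mem_left _ _ hy'), ?_⟩
        rw [map_add, map_mul, map_mul, map_C, map_C, ex, ey, map_mul, C_mul]
        ring
      · rintro g x _ ⟨q, hq, x', hx', ex⟩
        obtain ⟨t, ht, g', hg'⟩ := clr_denom (R := MvPolynomial (ℕ × ℕ) k) g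
        refine ⟨t * q, mul_ne_zero ht hq, g' * x', Ideal.mul_mem_left _ _ hx', ?_⟩
        rw [map_mul, hg', ex, map_mul, C_mul, smul_eq_mul]
        ring
    obtain ⟨q, hq, f', hf', e⟩ := claim f hf
    have hq1 : algebraMap (MvPolynomial (ℕ × ℕ) k)
        (FractionRing (MvPolynomial (ℕ × ℕ) k)) q ≠ 0 := (map_ne_zero_iff _ inj).2 hq
    have key : ∀ b, f'.coeff b = 0 ↔ f.coeff b = 0 := by
      intro b
      have h1 := congrArg (coeff b) e
      rw [coeff_map, coeff_C_mul] at h1
      constructor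
      · intro h
        rw [h, map_zero] at h1
        rcases mul_eq_zero.1 h1.symm with h2 | h2
        · exact absurd h2 hq1
        · exact h2
      · intro h
        rw [h, mul_zero] at h1
        exact (map_eq_zero_iff _ inj).1 h1
    refine ⟨f', hf', ?_, fun h => hm ((key m).1 h), fun b h => (key b).2 (hb b h)⟩
    intro d hd
    exact hh fun h => hd ((key d).2 h)
  · rintro ⟨f, hf, hh, hm, hb⟩
    refine ⟨MvPolynomial.map (algebraMap (MvPolynomial (ℕ × ℕ) k)
      (FractionRing (MvPolynomial (ℕ × ℕ) k))) f, ?_, hh.map _, ?_, ?_⟩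
    · have h1 : idl (gP k) j N r ≤ (idl (gF k) j N r).comap
          (MvPolynomial.map (algebraMap (MvPolynomial (ℕ × ℕ) k)
            (FractionRing (MvPolynomial (ℕ × ℕ) k)))) := by
        refine Ideal.span_le.2 ?_
        rintro x ⟨i, hi, rfl⟩
        rw [SetLike.mem_coe, Ideal.mem_comap, map_pow, hlf]
        exact Ideal.subset_span ⟨i, hi, rfl⟩
      exact h1 hf
    · rw [coeff_map]
      exact (map_ne_zero_iff _ inj).2 hm
    · intro b h
      rw [coeff_map, hb b h, map_zero]

end Pool.Agent.Helper74.HF
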